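import Pool.Agent.P.MP_dd1f31_an.Neg

namespace Pool.Agent.Results.MP_dd1f31_an.Threshold

/-- For real `s > 0`, the entire function `∑ k ^ s / (k!) ^ 2 * z ^ k` is a locally uniform limit
of real polynomials with only real zeros if and only if `1 / 2 ≤ s`. -/
theorem result (s : ℝ) (hs : 0 < s) :
    (∃ p : ℕ → Polynomial ℝ,
      (∀ n, ∀ z : ℂ, Polynomial.aeval z (p n) = 0 → z.im = 0) ∧
      TendstoLocallyUniformly (fun n (z : ℂ) => Polynomial.aeval z (p n))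
        (fun z : ℂ => ∑' k : ℕ, (((k : ℝ) ^ s / (Nat.factorial k : ℝ) ^ 2 : ℝ) : ℂ) * z ^ k)
        Filter.atTop) ↔ 1 / 2 ≤ s := by
  constructor
  · rintro ⟨p, hp, hc⟩
    by_contra h
    exact Pool.Agent.P.MP_dd1f31_an.not_lp hs (not_le.mp h) p hp hc
  · intro h
    obtain ⟨p, hp, hc⟩ := Pool.Agent.P.MP_dd1f31_an.lp_of_half h
    exact ⟨p, fun n z hz => (hp n z hz).1, hc⟩

end Pool.Agent.Results.MP_dd1f31_an.Threshold
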